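import Pool.Agent.Q248.PI.El

/-!
# The collections of product intersection sets are closed under unions
-/

namespace Pool.Agent.Results.MP_1fd3e3_co.UnionClosed

open Pool.Agent.Q248.PI

universe u v w w'

/-- `X` is the product intersection set of a family of subsets, indexed by `Q` and with
infinitely many different members, of some semigroup (in the universe `u`). -/
def InHQ (Q : Type v) (X : Set ℕ) : Prop :=
  ∃ (S : Type u) (_ : Semigroup S), X ∈ HQ Q S

/-- `X` is the product intersection set of an asymptotically strictly decreasing sequence of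
subsets of some semigroup (in the universe `u`). -/
def InHStar (X : Set ℕ) : Prop :=
  ∃ (S : Type u) (_ : Semigroup S), X ∈ HStar S

/-- Both `H_Q`, for every infinite `Q`, and `H*_ℕ` are closed under unions. (The semigroups that
realise `X` and `Y` may live in any universes `w` and `w'`; the one that realises `X ∪ Y` is found
in any given universe `u`, so in particular in the smallest one.) -/
theorem result :
    (∀ (Q : Type v) [Infinite Q] (X Y : Set ℕ),
      InHQ.{w} Q X → InHQ.{w'} Q Y → InHQ.{u} Q (X ∪ Y)) ∧
    (∀ X Y : Set ℕ, InHStar.{w} X → InHStar.{w'} Y → InHStar.{u} (X ∪ Y)) := by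
  constructor
  · rintro Q _ X Y ⟨S, _, A, _, rfl⟩ ⟨T, _, B, _, rfl⟩
    refine ⟨El.{u}, inferInstance, El.hQ_El Q (Or.inl (one_mem_interSet A)) ?_⟩
    rintro h (hh | hh)
    · exact pos_of_mem_interSet hh
    · exact pos_of_mem_interSet hh
  · rintro X Y ⟨S, _, A, _, rfl⟩ ⟨T, _, B, _, rfl⟩
    refine ⟨El.{u}, inferInstance, El.hStar_El (Or.inl (one_mem_interSet A)) ?_⟩
    rintro h (hh | hh)
    · exact pos_of_mem_interSet hh
    · exact pos_of_mem_interSet hh

end Pool.Agent.Results.MP_1fd3e3_co.UnionClosed
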